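import Pool.Agent.J4H60.IF.Stm

set_option autoImplicit false

/-! Project IF (helper60), part M: the disjointness graph on the triples of the family is a perfect matching. -/

namespace Pool.Agent.J4H55.IF

open Finset
open Pool.Agent.J4H60.IF

def T : Finset V := powersetCard 3 univ

theorem mem_T {X : V} : X ∈ T ↔ X.card = 3 := by simp [T, mem_powersetCard]

theorem card_T : T.card = 35 := by
  rw [T, card_powersetCard, card_univ, Fintype.card_fin]
  rfl

theorem card_U : U.card = 64 := by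
  decide +kernel

def b (X Y : V) : ℕ := if X ≠ Y ∧ Disjoint X Y then 1 else 0

def E (S R : Finset V) : ℕ := ∑ X ∈ S, ∑ Y ∈ R, b X Y

theorem b_comm (X Y : V) : b X Y = b Y X := by
  unfold b
  exact if_congr ⟨fun h => ⟨h.1.symm, h.2.symm⟩, fun h => ⟨h.1.symm, h.2.symm⟩⟩ rfl rfl

theorem E_comm (S R : Finset V) : E S R = E R S := by
  unfold E
  rw [sum_comm]
  exact sum_congr rfl (fun X _ => sum_congr rfl (fun Y _ => b_comm Y X))

theorem D_eq (A : Finset V) : D A = E A A := by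
  unfold D E b
  rw [card_filter, sum_product]

theorem E_union_right {S R Q : Finset V} (h : Disjoint R Q) : E S (R ∪ Q) = E S R + E S Q := by
  unfold E
  rw [← sum_add_distrib]
  exact sum_congr rfl (fun X _ => sum_union h)

theorem E_union_left {S R Q : Finset V} (h : Disjoint R Q) : E (R ∪ Q) S = E R S + E Q S := by
  rw [E_comm, E_union_right h, E_comm S R, E_comm S Q]

theorem card_compl3 {X : V} (h : X.card = 3) : Xᶜ.card = 4 := by
  rw [card_compl, h, Fintype.card_fin]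

theorem row_T {X : V} (h : X.card = 3) : ∑ Y ∈ T, b X Y = 4 := by
  unfold b
  rw [← card_filter]
  have e : T.filter (fun Y => X ≠ Y ∧ Disjoint X Y) = powersetCard 3 Xᶜ := by
    ext Y
    rw [mem_filter, mem_T, mem_powersetCard]
    constructor
    · rintro ⟨h1, h2, h3⟩
      exact ⟨subset_compl_iff_disjoint_left.2 h3, h1⟩
    · rintro ⟨h1, h2⟩
      have h3 : Disjoint X Y := subset_compl_iff_disjoint_left.1 h1
      refine ⟨h2, ?_, h3⟩
      rintro rfl
      rw [disjoint_self, bot_eq_empty] at h3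
      rw [h3, card_empty] at h
      omega
  rw [e, card_powersetCard, card_compl3 h]
  rfl

theorem E_T {S : Finset V} (h : ∀ X ∈ S, X.card = 3) : E S T = 4 * S.card := by
  unfold E
  rw [sum_congr rfl (fun X hX => row_T (h X hX)), sum_const, smul_eq_mul, mul_comm]

/-- fibre bound -/
theorem fib {X : V} (hX : X.card = 3) {C : Finset V} (hC : ∀ Z ∈ C, Z.card = 3)
    (hI : ∀ Z ∈ C, ∀ Z' ∈ C, ¬ (Z ≠ Z' ∧ Disjoint Z Z')) (p : V) (hp : p ∈ powersetCard 2 Xᶜ) :
    (C.filter (fun Z => Z \ X = p)).card + (C.filter (fun Z => Z \ X = Xᶜ \ p)).card ≤ 3 := by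
  rw [mem_powersetCard] at hp
  have hin : ∀ Z ∈ C, ∀ q : V, Z \ X = q → q.card = 2 → (Z ∩ X).card = 1 := by
    intro Z hZ q h1 h2
    have := card_sdiff_add_card_inter Z X
    rw [h1, h2, hC Z hZ] at this
    omega
  have hp' : (Xᶜ \ p).card = 2 := by
    rw [card_sdiff_of_subset hp.1, card_compl3 hX, hp.2]
  have hle : ∀ q : V, q.card = 2 → (C.filter (fun Z => Z \ X = q)).card ≤ 3 := by
    intro q hq
    have : (powersetCard 1 X).card = 3 := by rw [card_powersetCard, hX]; rfl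
    rw [← this]
    apply card_le_card_of_injOn (fun Z => Z ∩ X)
    · intro Z hZ
      have hZ' := mem_filter.1 (mem_coe.1 hZ)
      exact mem_coe.2 (mem_powersetCard.2 ⟨inter_subset_right, hin Z hZ'.1 q hZ'.2 hq⟩)
    · intro Z hZ Z' hZ' h
      have h1 := mem_filter.1 (mem_coe.1 hZ)
      have h2 := mem_filter.1 (mem_coe.1 hZ')
      have h3 : Z ∩ X = Z' ∩ X := h
      rw [← sdiff_union_inter Z X, ← sdiff_union_inter Z' X, h1.2, h2.2, h3]
  rcases (C.filter (fun Z => Z \ X = p)).eq_empty_or_nonempty with h0 | ⟨Z, hZ⟩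
  · rw [h0, card_empty, zero_add]
    exact hle _ hp'
  rcases (C.filter (fun Z => Z \ X = Xᶜ \ p)).eq_empty_or_nonempty with h0 | ⟨Z', hZ'⟩
  · rw [h0, card_empty, add_zero]
    exact hle _ hp.2
  have hdis : Disjoint p (Xᶜ \ p) := disjoint_sdiff
  have key : ∀ W ∈ C, ∀ W' ∈ C, W \ X = p → W' \ X = Xᶜ \ p → W ∩ X = W' ∩ X := by
    intro W hW W' hW' h1 h2
    have hne : W ≠ W' := by
      rintro rfl
      rw [h1] at h2
      rw [← h2, disjoint_self, bot_eq_empty] at hdis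
      rw [hdis, card_empty] at hp
      omega
    have h3 : ¬ Disjoint W W' := fun h => hI W hW W' hW' ⟨hne, h⟩
    rw [not_disjoint_iff] at h3
    obtain ⟨a, ha, ha'⟩ := h3
    have haX : a ∈ X := by
      by_contra haX
      have h4 : a ∈ p := by rw [← h1]; exact mem_sdiff.2 ⟨ha, haX⟩
      have h5 : a ∈ Xᶜ \ p := by rw [← h2]; exact mem_sdiff.2 ⟨ha', haX⟩
      exact (mem_sdiff.1 h5).2 h4
    obtain ⟨c, hc⟩ := card_eq_one.1 (hin W hW p h1 hp.2)
    obtain ⟨c', hc'⟩ := card_eq_one.1 (hin W' hW' _ h2 hp')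
    have h6 : a ∈ W ∩ X := mem_inter.2 ⟨ha, haX⟩
    have h7 : a ∈ W' ∩ X := mem_inter.2 ⟨ha', haX⟩
    rw [hc, mem_singleton] at h6
    rw [hc', mem_singleton] at h7
    rw [hc, hc', ← h6, ← h7]
  have hZ1 := mem_filter.1 hZ
  have hZ2 := mem_filter.1 hZ'
  have c1 : (C.filter (fun Z => Z \ X = p)).card ≤ 1 := by
    rw [card_le_one]
    intro W hW W1 hW1
    have a1 := mem_filter.1 hW
    have a2 := mem_filter.1 hW1
    rw [← sdiff_union_inter W X, ← sdiff_union_inter W1 X, a1.2, a2.2, key W a1.1 Z' hZ2.1 a1.2 hZ2.2,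
      key W1 a2.1 Z' hZ2.1 a2.2 hZ2.2]
  have c2 : (C.filter (fun Z => Z \ X = Xᶜ \ p)).card ≤ 1 := by
    rw [card_le_one]
    intro W hW W1 hW1
    have a1 := mem_filter.1 hW
    have a2 := mem_filter.1 hW1
    rw [← sdiff_union_inter W X, ← sdiff_union_inter W1 X, a1.2, a2.2, ← key Z hZ1.1 W a1.1 hZ1.2 a1.2,
      ← key Z hZ1.1 W1 a2.1 hZ1.2 a2.2]
  omega

theorem cl {X : V} (hX : X.card = 3) {C : Finset V} (hC : ∀ Z ∈ C, Z.card = 3)
    (hI : ∀ Z ∈ C, ∀ Z' ∈ C, ¬ (Z ≠ Z' ∧ Disjoint Z Z')) (hN : powersetCard 3 Xᶜ ⊆ C) : C.card ≤ 13 := by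
  have h1 : ∀ Z ∈ C, (Z ∩ X).card ≤ 1 := by
    intro Z hZ
    by_contra hlt
    rw [not_le] at hlt
    have h2 := card_sdiff_add_card_inter Z X
    rw [hC Z hZ] at h2
    have h3 : 3 ≤ (Xᶜ \ Z).card := by
      have h4 : Xᶜ ∩ Z = Z \ X := by
        ext a
        simp only [mem_inter, mem_compl, mem_sdiff]
        tauto
      have h5 := card_sdiff_add_card_inter Xᶜ Z
      rw [h4, card_compl3 hX] at h5
      omega
    obtain ⟨W, hW1, hW2⟩ := exists_subset_card_eq h3
    have hWC : W ∈ C := hN (mem_powersetCard.2 ⟨hW1.trans sdiff_subset, hW2⟩)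
    have hd : Disjoint W Z := disjoint_of_subset_left hW1 sdiff_disjoint
    apply hI W hWC Z hZ
    refine ⟨?_, hd⟩
    rintro rfl
    rw [disjoint_self, bot_eq_empty] at hd
    rw [hd, card_empty] at hW2
    omega
  have h0 : (C.filter (fun Z => (Z ∩ X).card = 0)).card ≤ 4 := by
    have : (powersetCard 3 Xᶜ).card = 4 := by rw [card_powersetCard, card_compl3 hX]; rfl
    rw [← this]
    apply card_le_card
    intro Z hZ
    obtain ⟨a1, a2⟩ := mem_filter.1 hZ
    rw [mem_powersetCard]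
    refine ⟨?_, hC Z a1⟩
    rw [card_eq_zero, ← disjoint_iff_inter_eq_empty] at a2
    exact subset_compl_iff_disjoint_right.2 a2
  obtain ⟨C1, hC1⟩ : ∃ C1, C1 = C.filter (fun Z => ¬ (Z ∩ X).card = 0) := ⟨_, rfl⟩
  have hsum : C.card = (C.filter (fun Z => (Z ∩ X).card = 0)).card + C1.card := by
    rw [hC1, card_filter_add_card_filter_not]
  have hC1C : ∀ Z ∈ C1, Z ∈ C := by
    intro Z hZ
    rw [hC1] at hZ
    exact (mem_filter.1 hZ).1
  have hmap : ∀ Z ∈ C1, Z \ X ∈ powersetCard 2 Xᶜ := by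
    intro Z hZ
    rw [hC1] at hZ
    obtain ⟨a1, a2⟩ := mem_filter.1 hZ
    have a3 := h1 Z a1
    have a4 := card_sdiff_add_card_inter Z X
    rw [hC Z a1] at a4
    rw [mem_powersetCard]
    refine ⟨?_, by omega⟩
    intro a ha
    rw [mem_compl]
    exact (mem_sdiff.1 ha).2
  have e1 : C1.card = ∑ p ∈ powersetCard 2 Xᶜ, (C1.filter (fun Z => Z \ X = p)).card :=
    card_eq_sum_card_fiberwise (fun Z hZ => hmap Z hZ)
  have e2 : ∑ p ∈ powersetCard 2 Xᶜ, (C1.filter (fun Z => Z \ X = p)).card =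
      ∑ p ∈ powersetCard 2 Xᶜ, (C1.filter (fun Z => Z \ X = Xᶜ \ p)).card := by
    have hinv : ∀ p ∈ powersetCard 2 Xᶜ, Xᶜ \ p ∈ powersetCard 2 Xᶜ := by
      intro p hp
      rw [mem_powersetCard] at hp ⊢
      exact ⟨sdiff_subset, by rw [card_sdiff_of_subset hp.1, card_compl3 hX, hp.2]⟩
    have hinv2 : ∀ p ∈ powersetCard 2 Xᶜ, Xᶜ \ (Xᶜ \ p) = p := by
      intro p hp
      rw [mem_powersetCard] at hp
      exact Finset.sdiff_sdiff_eq_self hp.1
    refine sum_nbij' (fun p => Xᶜ \ p) (fun p => Xᶜ \ p) hinv hinv hinv2 hinv2 ?_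
    intro p hp
    rw [hinv2 p hp]
  have e3 : ∑ p ∈ powersetCard 2 Xᶜ, ((C1.filter (fun Z => Z \ X = p)).card + (C1.filter (fun Z => Z \ X = Xᶜ \ p)).card) ≤
      ∑ p ∈ powersetCard 2 Xᶜ, 3 := by
    apply sum_le_sum
    intro p hp
    exact fib hX (fun Z hZ => hC Z (hC1C Z hZ)) (fun Z hZ Z' hZ' => hI Z (hC1C Z hZ) Z' (hC1C Z' hZ')) p hp
  rw [sum_add_distrib, ← e2, ← e1, sum_const, card_powersetCard, card_compl3 hX, smul_eq_mul] at e3
  have e4 : Nat.choose 4 2 = 6 := rfl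
  rw [e4] at e3
  omega

theorem t_M : S_M := by
  intro A hA h3 hU hD
  obtain ⟨G, hG⟩ : ∃ G, G = A.filter (fun X => X.card = 3) := ⟨_, rfl⟩
  rw [← hG]
  have hG3 : ∀ X ∈ G, X.card = 3 := by
    intro X hX
    rw [hG] at hX
    exact (mem_filter.1 hX).2
  have hmU : ∀ X : V, X ∈ U ↔ 4 ≤ X.card := by
    intro X
    unfold U
    rw [mem_filter]
    exact ⟨fun h => h.2, fun h => ⟨mem_univ _, h⟩⟩
  have hdU : Disjoint G U := by
    rw [disjoint_left]
    intro X h1 h2
    rw [hmU] at h2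
    have := hG3 X h1
    omega
  have hAe : A = G ∪ U := by
    ext X
    rw [mem_union, hG, mem_filter, hmU]
    constructor
    · intro h
      have := h3 X h
      rcases Nat.lt_or_ge X.card 4 with h4 | h4
      · exact Or.inl ⟨h, by omega⟩
      · exact Or.inr h4
    · rintro (h | h)
      · exact h.1
      · exact hU ((hmU X).2 h)
  have hGc : G.card = 20 := by
    have := card_union_of_disjoint hdU
    rw [← hAe, hA, card_U] at this
    omega
  refine ⟨hGc, ?_⟩
  have hDA : D A = E G G + E G U + (E U G + E U U) := by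
    rw [D_eq, hAe, E_union_left hdU, E_union_right hdU, E_union_right hdU]
  have hGU : 20 ≤ E G U := by
    have : ∑ X ∈ G, 1 ≤ ∑ X ∈ G, ∑ Y ∈ U, b X Y := by
      apply sum_le_sum
      intro X hX
      have hc := card_compl3 (hG3 X hX)
      have h1 : b X Xᶜ = 1 := by
        unfold b
        rw [if_pos]
        refine ⟨?_, disjoint_compl_right⟩
        intro h
        have := congrArg card h
        rw [hc, hG3 X hX] at this
        omega
      rw [← h1]
      exact single_le_sum (f := fun Y => b X Y) (fun Y _ => Nat.zero_le _) ((hmU _).2 hc.ge)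
    rw [sum_const, smul_eq_mul, mul_one, hGc] at this
    exact this
  have hUG : E U G = E G U := E_comm _ _
  obtain ⟨C, hC⟩ : ∃ C, C = T \ G := ⟨_, rfl⟩
  have hGT : G ⊆ T := fun X hX => mem_T.2 (hG3 X hX)
  have hC3 : ∀ X ∈ C, X.card = 3 := by
    intro X hX
    rw [hC] at hX
    exact mem_T.1 (mem_sdiff.1 hX).1
  have hCc : C.card = 15 := by
    rw [hC, card_sdiff_of_subset hGT, card_T, hGc]
  have hTe : T = G ∪ C := by
    rw [hC, union_sdiff_of_subset hGT]
  have hdC : Disjoint G C := by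
    rw [hC]
    exact disjoint_sdiff
  have k1 : E G G + E G C = 80 := by
    rw [← E_union_right hdC, ← hTe, E_T hG3, hGc]
  have k2 : E C G + E C C = 60 := by
    rw [← E_union_right hdC, ← hTe, E_T hC3, hCc]
  have k3 : E C G = E G C := E_comm _ _
  have k4 : E C C = 0 := by omega
  have k5 : E G G = 20 := by omega
  have hI : ∀ Z ∈ C, ∀ Z' ∈ C, ¬ (Z ≠ Z' ∧ Disjoint Z Z') := by
    intro Z hZ Z' hZ' h
    unfold E at k4
    rw [sum_eq_zero_iff] at k4
    have k6 := k4 Z hZ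
    rw [sum_eq_zero_iff] at k6
    have k7 := k6 Z' hZ'
    unfold b at k7
    rw [if_pos h] at k7
    omega
  have hr : ∀ X ∈ G, 1 ≤ ∑ Y ∈ G, b X Y := by
    intro X hX
    by_contra hlt
    rw [not_le, Nat.lt_one_iff, sum_eq_zero_iff] at hlt
    have hN : powersetCard 3 Xᶜ ⊆ C := by
      intro Y hY
      rw [mem_powersetCard] at hY
      rw [hC, mem_sdiff]
      refine ⟨mem_T.2 hY.2, ?_⟩
      intro hYG
      have k6 := hlt Y hYG
      have hd : Disjoint X Y := subset_compl_iff_disjoint_left.1 hY.1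
      have hne : X ≠ Y := by
        rintro rfl
        rw [disjoint_self, bot_eq_empty] at hd
        rw [hd, card_empty] at hY
        omega
      unfold b at k6
      rw [if_pos ⟨hne, hd⟩] at k6
      omega
    have := cl (hG3 X hX) hC3 hI hN
    omega
  have heq : ∑ X ∈ G, 1 = ∑ X ∈ G, ∑ Y ∈ G, b X Y := by
    have : ∑ X ∈ G, ∑ Y ∈ G, b X Y = E G G := rfl
    rw [this, k5, sum_const, smul_eq_mul, mul_one, hGc]
  have hall := (sum_eq_sum_iff_of_le hr).1 heq
  intro X hX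
  have h1 := hall X hX
  unfold b at h1
  rw [← card_filter] at h1
  obtain ⟨Y, hY⟩ := card_eq_one.1 h1.symm
  have hYm : Y ∈ G.filter (fun Y => X ≠ Y ∧ Disjoint X Y) := by
    rw [hY]
    exact mem_singleton_self Y
  obtain ⟨m1, m2, m3⟩ := mem_filter.1 hYm
  refine ⟨Y, ⟨m1, m3⟩, ?_⟩
  rintro Z ⟨hZ1, hZ2⟩
  have hne : X ≠ Z := by
    rintro rfl
    rw [disjoint_self, bot_eq_empty] at hZ2
    have := hG3 X hX
    rw [hZ2, card_empty] at this
    omega
  have hZm : Z ∈ G.filter (fun Y => X ≠ Y ∧ Disjoint X Y) := mem_filter.2 ⟨hZ1, hne, hZ2⟩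
  rw [hY] at hZm
  exact mem_singleton.1 hZm

end Pool.Agent.J4H55.IF
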